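import Pool.Agent.Helper99.LZ.Bridge

/-!
# PACKET MT-SCB (MP_2b0227_gt): product with a scalar tangle
-/

set_option autoImplicit false

open Finset Filter Topology

namespace Pool.Agent.Helper12.LZ

open Pool.Agent.Helper99.LZ

theorem onePos_limit {V : Type} [AddCommGroup V] [Module ℝ V] (B C : V →ₗ[ℝ] V →ₗ[ℝ] ℝ)
    (h : ∀ δ : ℝ, 0 < δ → OnePos (B + δ • C)) : OnePos B := by
  intro u v hu
  have key : ∀ x y, (fun δ : ℝ => (B + δ • C) x y) = fun δ : ℝ => B x y + δ * C x y := by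
    intro x y
    funext δ
    simp
  have lim : ∀ x y, Tendsto (fun δ : ℝ => (B + δ • C) x y) (𝓝[>] 0) (𝓝 (B x y)) := by
    intro x y
    rw [key]
    have hc : Continuous fun δ : ℝ => B x y + δ * C x y := by fun_prop
    exact (hc.tendsto' 0 _ (by simp)).mono_left nhdsWithin_le_nhds
  have ev : ∀ᶠ δ : ℝ in 𝓝[>] 0, 0 < (B + δ • C) u u := (lim u u).eventually (lt_mem_nhds hu)
  refine le_of_tendsto_of_tendsto ((lim u u).mul (lim v v)) ((lim u v).pow 2) ?_
  filter_upwards [ev, self_mem_nhdsWithin] with δ h1 h2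
  exact h δ h2 u v h1

theorem prod_zst {V V₀ : Type} [AddCommGroup V] [Module ℝ V] [AddCommGroup V₀] [Module ℝ V₀]
    (S : Ctx V) (S₀ : Ctx V₀) (a b n : ℤ) (x₀ : V₀ →ₗ[ℝ] ℝ) (h0 : S₀.HS a b x₀) (δ : ℝ)
    (m : ℤ → ℤ → ℝ) (hm : Cpl (S₀.zst δ).pr a (b + 1) m) :
    S.prod m a (b + 1) n = (∑ k ∈ Icc a b, S₀.pr.L k • S.D (n - 2 - k) (n - k)) +
      δ • ∑ k ∈ Icc a b, S₀.pr.L k • S.D (n - 2 - k) (n - (k + 1)) := by
  have hP : ∀ p, (S₀.zst δ).pr.P p = (1 + δ) * S₀.pr.P p := by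
    intro p
    simp only [Ctx.pr, Ctx.zst, LinearMap.add_apply, LinearMap.smul_apply, smul_eq_mul]
    ring
  have hQ : ∀ q, (S₀.zst δ).pr.Q q = S₀.pr.Q q + δ * S₀.pr.Q (q - 1) := by
    intro q
    simp only [Ctx.pr, Ctx.zst, LinearMap.add_apply, LinearMap.smul_apply, smul_eq_mul]
  have hQP : ∀ k, S₀.pr.Q k = S₀.pr.P k := by
    intro k
    have := h0.F0 k
    unfold Pr.F Pr.H at this
    linarith
  have hL0 : ∀ k, 0 ≤ S₀.pr.L k := by
    intro k
    by_cases h1 : a ≤ k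
    · by_cases h2 : k ≤ b
      · exact (h0.Lpos k h1 h2).le
      · unfold Pr.L
        rw [h0.hi k (by omega), h0.hi (k - 1) (by omega), sub_self]
    · unfold Pr.L
      rw [h0.lo k (by omega), h0.lo (k - 1) (by omega), sub_self]
  have hLd : ∀ k, (S₀.zst δ).pr.L k = (1 + δ) * S₀.pr.L k := by
    intro k
    unfold Pr.L
    rw [hP, hP]
    ring
  have hh : ∀ k, (S₀.zst δ).pr.h k = -S₀.pr.L k := by
    intro k
    unfold Pr.h Pr.H Pr.L
    rw [hP, hQ, hQP, hQP]
    ring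
  have hhp : ∀ k, (S₀.zst δ).pr.hp k = 0 := by
    intro k
    unfold Pr.hp
    rw [hh]
    exact max_eq_left (by linarith [hL0 k])
  have hF : ∀ k, (S₀.zst δ).pr.F k = δ * S₀.pr.L k := by
    intro k
    unfold Pr.F Pr.H Pr.L
    rw [hP, hQ, hQP, hQP]
    ring
  have hin : ∀ i, m i i = S₀.pr.L i := by
    intro i
    rw [hm.inst i]
    unfold Pr.al
    rw [hh, neg_neg]
    exact max_eq_right (hL0 i)
  have hon : ∀ i, m i (i + 1) = δ * S₀.pr.L i := by
    intro i
    have := hm.one (i + 1)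
    rw [show i + 1 - 1 = i by ring, hhp, hhp, max_self, sub_zero, hF] at this
    exact this
  have hz : ∀ i ∈ Icc a b, ∀ i' ∈ Icc a (b + 1), i' ≠ i → i' ≠ i + 1 → m i i' = 0 := by
    intro i hi i' hi' h1 h2
    rw [mem_Icc] at hi hi'
    have hs : ({i, i + 1, i'} : Finset ℤ) ⊆ Icc a (b + 1) := by
      intro z hz
      simp only [mem_insert, mem_singleton] at hz
      rw [mem_Icc]
      omega
    have hle := Finset.sum_le_sum_of_subset_of_nonneg (f := fun i' => m i i') hs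
      (fun z _ _ => hm.nn i z)
    rw [hm.row i, Finset.sum_insert (by simp only [mem_insert, mem_singleton]; omega),
      Finset.sum_insert (by simp only [mem_singleton]; omega), Finset.sum_singleton, hin, hon,
      hLd] at hle
    have := hm.nn i i'
    linarith
  have hb : ∀ i' ∈ Icc a (b + 1), m (b + 1) i' = 0 := by
    have h1 : ∑ i' ∈ Icc a (b + 1), m (b + 1) i' = 0 := by
      rw [hm.row, hLd]
      unfold Pr.L
      rw [h0.hi (b + 1) (by omega), h0.hi (b + 1 - 1) (by omega), sub_self, mul_zero]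
    intro i' hi'
    exact (Finset.sum_eq_zero_iff_of_nonneg (fun z _ => hm.nn (b + 1) z)).1 h1 i' hi'
  have hinner : ∀ i ∈ Icc a b, ∑ i' ∈ Icc a (b + 1), m i i' • S.D (n - 2 - i) (n - i') =
      S₀.pr.L i • S.D (n - 2 - i) (n - i) +
        δ • (S₀.pr.L i • S.D (n - 2 - i) (n - (i + 1))) := by
    intro i hi
    have hi2 := mem_Icc.1 hi
    have hs : ({i, i + 1} : Finset ℤ) ⊆ Icc a (b + 1) := by
      intro z hz
      simp only [mem_insert, mem_singleton] at hz
      rw [mem_Icc]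
      omega
    rw [← Finset.sum_subset hs (fun z hz1 hz2 => by
      simp only [mem_insert, mem_singleton, not_or] at hz2
      rw [hz i hi z hz1 hz2.1 hz2.2, zero_smul])]
    rw [Finset.sum_insert (by simp only [mem_singleton]; omega), Finset.sum_singleton, hin, hon,
      mul_smul]
  unfold Ctx.prod
  rw [← Finset.sum_subset (Finset.Icc_subset_Icc_right (show b ≤ b + 1 by omega)) (fun z hz1 hz2 => by
    have : z = b + 1 := by
      rw [mem_Icc] at hz1 hz2
      omega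
    subst this
    exact Finset.sum_eq_zero fun i' hi' => by rw [hb i' hi', zero_smul])]
  rw [Finset.sum_congr rfl hinner, Finset.sum_add_distrib, Finset.smul_sum]

theorem scb (h1 : StmtMASTER) (h2 : StmtMASTER0) (h3 : StmtZST) (h4 : StmtCP) (h5 : StmtCPL) :
    StmtSCB := by
  intro V V₀ _ _ _ _ S S₀ a b a₂ b₂ n x x₀ h0 hS
  refine onePos_limit _ (∑ k ∈ Icc a b, S₀.pr.L k • S.D (n - 2 - k) (n - (k + 1))) ?_
  intro δ hδ
  have hT : (S₀.zst δ).pr.HH1 a (b + 1) := h4 _ _ a (b + 1) (h3 V₀ S₀ a b x₀ δ h0 hδ)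
  obtain ⟨m, hm⟩ := h5 _ a (b + 1) hT.toReg
  rw [← prod_zst S S₀ a b n x₀ h0 δ m hm]
  rcases hS with hS | hS
  · exact h1 V S _ a (b + 1) a₂ b₂ n m hS hT hm
  · exact h2 V S _ a (b + 1) a₂ b₂ n x m hS hT hm

end Pool.Agent.Helper12.LZ
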